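import Pool.Agent.H65.HW.GStm

/-!
# Project HW, parts BLB and LEF (helper87)
-/

set_option autoImplicit false
open Classical Finset

namespace Pool.Agent.H87.HW

open Pool.Agent.H21.HV (nb Prp TotLab)
open Pool.Agent.H39.HW (sm Av ln blk lab Dat Sch Reg)
open Pool.Agent.H65.HW

/-- enumeration of a finite set of natural numbers -/
noncomputable def en (S : Finset ℕ) (k : ℕ) : ℕ :=
  if h : k < S.card then (S.orderEmbOfFin rfl ⟨k, h⟩ : ℕ) else 0

theorem en_mem (S : Finset ℕ) (k : ℕ) (h : k < S.card) : en S k ∈ S := by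
  unfold en
  rw [dif_pos h]
  exact S.orderEmbOfFin_mem rfl _

theorem en_inj (S : Finset ℕ) (k l : ℕ) (hk : k < S.card) (hl : l < S.card)
    (h : en S k = en S l) : k = l := by
  unfold en at h
  rw [dif_pos hk, dif_pos hl] at h
  have := (S.orderEmbOfFin rfl).injective h
  exact Fin.mk.inj this

theorem filter_inst {V : Type} [Fintype V] {q : V → Prop} {i1 i2 : DecidablePred q} {n : ℕ}
    (h : (@Finset.filter V q i1 univ).card ≤ n) : (@Finset.filter V q i2 univ).card ≤ n := by
  have : i1 = i2 := Subsingleton.elim _ _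
  subst this
  exact h

/-- the edges of the group `i` -/
def grp {V ι : Type} (Γ : SimpleGraph V) (be : V → V → ι) (hbe : ∀ u v, be u v = be v u) (i : ι) :
    SimpleGraph V where
  Adj u v := Γ.Adj u v ∧ be u v = i
  symm := ⟨fun u v h => ⟨h.1.symm, by rw [hbe v u]; exact h.2⟩⟩
  loopless := ⟨fun u h => h.1.ne rfl⟩

theorem t_BLB (hK : S_KOE) : S_BLB := by
  intro V _ Γ ι be Lb P Q hbe hPQ hbip hdeg hdis
  obtain ⟨Γi, hΓi⟩ : ∃ Γi : ι → SimpleGraph V, ∀ i u v, (Γi i).Adj u v ↔ Γ.Adj u v ∧ be u v = i :=
    ⟨grp Γ be hbe, fun i u v => Iff.rfl⟩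
  have hnb : ∀ i v, nb (Γi i) univ v ≤ (Lb i).card := by
    intro i v
    refine le_trans (Finset.card_le_card ?_) (hdeg i v)
    intro x hx
    exact mem_filter.mpr ⟨mem_univ _, (hΓi i v x).mp (mem_filter.mp hx).2⟩
  have hex : ∀ i, ∃ c : V → V → ℕ, Prp (Γi i) (Lb i).card c := by
    intro i
    apply hK V (Γi i) (P i) (Q i) (Lb i).card
    · refine ⟨hPQ i, ?_⟩
      intro u v h
      obtain ⟨h1, h2⟩ := (hΓi i u v).mp h
      have := hbip u v h1
      rw [h2] at this
      exact this
    · exact hnb i
  choose c hc using hex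
  refine ⟨fun u v => en (Lb (be u v)) (c (be u v) u v), ?_, ?_, ?_⟩
  · intro u v
    change en (Lb (be u v)) (c (be u v) u v) = en (Lb (be v u)) (c (be v u) v u)
    rw [hbe v u, (hc (be u v)).1 u v]
  · intro u v huv
    exact en_mem _ _ ((hc (be u v)).2.1 u v ((hΓi _ _ _).mpr ⟨huv, rfl⟩))
  · intro u v w huv huw hvw
    change en (Lb (be u v)) (c (be u v) u v) ≠ en (Lb (be u w)) (c (be u w) u w)
    by_cases h : be u v = be u w
    · rw [← h]
      intro he
      have h1 := (hc (be u v)).2.1 u v ((hΓi _ _ _).mpr ⟨huv, rfl⟩)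
      have h2 := (hc (be u v)).2.1 u w ((hΓi _ _ _).mpr ⟨huw, h.symm⟩)
      exact (hc (be u v)).2.2 u v w ((hΓi _ _ _).mpr ⟨huv, rfl⟩)
        ((hΓi _ _ _).mpr ⟨huw, h.symm⟩) hvw (en_inj _ _ _ h1 h2 he)
    · intro he
      have h1 := en_mem (Lb (be u v)) _ ((hc (be u v)).2.1 u v ((hΓi _ _ _).mpr ⟨huv, rfl⟩))
      have h2 := en_mem (Lb (be u w)) _ ((hc (be u w)).2.1 u w ((hΓi _ _ _).mpr ⟨huw, rfl⟩))
      rw [he] at h1
      exact Finset.disjoint_left.mp (hdis u v w huv huw h) h1 h2

/-! ### blocks -/

theorem st_mono {s : Dat} (h : ∀ β, s.st β ≤ s.st (β + 1)) : Monotone s.st :=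
  monotone_nat_of_le_succ h

theorem blk_disj {st : ℕ → ℕ} (h : Monotone st) {β γ : ℕ} (hne : β ≠ γ) :
    Disjoint (blk st β) (blk st γ) := by
  rw [Finset.disjoint_left]
  intro n h1 h2
  unfold blk at h1 h2
  rw [Finset.mem_Ico] at h1 h2
  rcases lt_or_gt_of_ne hne with h3 | h3
  · have := h (show β + 1 ≤ γ from h3)
    omega
  · have := h (show γ + 1 ≤ β from h3)
    omega

theorem lab_disj {st : ℕ → ℕ} (h : Monotone st) {T U : Finset ℕ} (hd : Disjoint T U) :
    Disjoint (lab st T) (lab st U) := by
  unfold lab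
  rw [Finset.disjoint_biUnion_left]
  intro β hβ
  rw [Finset.disjoint_biUnion_right]
  intro γ hγ
  apply blk_disj h
  rintro rfl
  exact Finset.disjoint_left.mp hd hβ hγ

theorem blk_card (st : ℕ → ℕ) (β : ℕ) : (blk st β).card = ln st β := by
  unfold blk ln
  rw [Nat.card_Ico]

/-- counting over cells -/
theorem card_cells {V : Type} [Fintype V] (cl : V → ℕ) (Y : Finset ℕ) (q p : V → Prop)
    [DecidablePred q] [DecidablePred p] (h : ∀ v, q v → cl v ∈ Y ∧ p v) :
    (univ.filter q).card ≤ ∑ i ∈ Y, ((cell cl i).filter p).card := by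
  refine le_trans (Finset.card_le_card ?_) Finset.card_biUnion_le
  intro v hv
  obtain ⟨h1, h2⟩ := h v (mem_filter.mp hv).2
  rw [mem_biUnion]
  exact ⟨cl v, h1, mem_filter.mpr ⟨mem_filter.mpr ⟨mem_univ _, rfl⟩, h2⟩⟩

theorem lt_B {D p : ℕ} {s : Dat} (h : Sch D p s) {a : ℕ} (ha : a ∈ s.R) : a < s.B := by
  have := (h.hR a ha).2
  omega

theorem t_LEF (hB : S_BLB) : S_LEF := by
  intro V _ G T D p s cl L hC hL
  have hs := hC.sch
  have hmono := st_mono hs.stm
  let be : V → V → ℕ × Finset ℕ := fun u v =>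
    if cl u ∈ s.R ∧ s.B ≤ cl v then
      (s.part (cl v - s.B), s.S (s.part (cl v - s.B)) (cl u))
    else if cl v ∈ s.R ∧ s.B ≤ cl u then
      (s.part (cl u - s.B), s.S (s.part (cl u - s.B)) (cl v))
    else (0, ∅)
  have be1 : ∀ u v, cl u ∈ s.R → s.B ≤ cl v →
      be u v = (s.part (cl v - s.B), s.S (s.part (cl v - s.B)) (cl u)) := by
    intro u v h1 h2
    simp only [be]
    rw [if_pos ⟨h1, h2⟩]
  have be2 : ∀ u v, cl v ∈ s.R → s.B ≤ cl u →
      be u v = (s.part (cl u - s.B), s.S (s.part (cl u - s.B)) (cl v)) := by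
    intro u v h1 h2
    simp only [be]
    rw [if_neg, if_pos ⟨h1, h2⟩]
    rintro ⟨h3, -⟩
    have := lt_B hs h3
    omega
  have besym : ∀ u v, be u v = be v u := by
    intro u v
    by_cases h1 : cl u ∈ s.R ∧ s.B ≤ cl v
    · rw [be1 u v h1.1 h1.2, be2 v u h1.1 h1.2]
    · by_cases h2 : cl v ∈ s.R ∧ s.B ≤ cl u
      · rw [be2 u v h2.1 h2.2, be1 v u h2.1 h2.2]
      · simp only [be]
        rw [if_neg h1, if_neg h2, if_neg h2, if_neg h1]
  have hspec : ∀ u, s.B ≤ cl u → cl u - s.B < s.m := by
    intro u hu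
    rcases hC.val u with h | h
    · have := lt_B hs h
      omega
    · omega
  have H1 : ∀ _i : ℕ × Finset ℕ, Disjoint (univ.filter fun v => cl v ∈ s.R)
      (univ.filter fun v => s.B ≤ cl v) := by
    intro i
    rw [Finset.disjoint_left]
    intro v h1 h2
    have h3 := lt_B hs (mem_filter.mp h1).2
    have h4 := (mem_filter.mp h2).2
    omega
  have H2 : ∀ u v, L.Adj u v →
      (u ∈ (univ.filter fun v => cl v ∈ s.R) ∧ v ∈ (univ.filter fun v => s.B ≤ cl v)) ∨
      (u ∈ (univ.filter fun v => s.B ≤ cl v) ∧ v ∈ (univ.filter fun v => cl v ∈ s.R)) := by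
    intro u v huv
    rcases hL.sup u v huv with h | h
    · left
      exact ⟨mem_filter.mpr ⟨mem_univ _, h.1⟩, mem_filter.mpr ⟨mem_univ _, h.2⟩⟩
    · right
      exact ⟨mem_filter.mpr ⟨mem_univ _, h.1⟩, mem_filter.mpr ⟨mem_univ _, h.2⟩⟩
  have H3 : ∀ (i : ℕ × Finset ℕ) u, (univ.filter (fun v => L.Adj u v ∧ be u v = i)).card ≤
      (lab s.st i.2).card := by
    rintro ⟨P, U⟩ u
    change (univ.filter (fun v => L.Adj u v ∧ be u v = (P, U))).card ≤ (lab s.st U).card
    rcases hC.val u with hu | hu
    · -- row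
      by_cases hne : ∃ v, L.Adj u v ∧ be u v = (P, U)
      · obtain ⟨v0, hv0, hb0⟩ := hne
        have hv0B : s.B ≤ cl v0 := by
          rcases hL.sup u v0 hv0 with h | h
          · exact h.2
          · have := lt_B hs hu
            omega
        rw [be1 u v0 hu hv0B, Prod.mk.injEq] at hb0
        obtain ⟨hP, hU⟩ := hb0
        have hPH : P < s.H := by
          rw [← hP]
          exact hs.prt _ (hspec v0 hv0B)
        rw [hP] at hU
        rw [← hU, ← hL.deg u hu P hPH]
        refine le_trans (card_cells cl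
          (((range s.m).filter (fun y => s.part y = P)).image (fun y => s.B + y)) _
          (fun v => L.Adj u v) ?_) ?_
        · rintro v ⟨h1, h2⟩
          refine ⟨?_, h1⟩
          have hvB : s.B ≤ cl v := by
            rcases hL.sup u v h1 with h | h
            · exact h.2
            · have := lt_B hs hu
              omega
          rw [be1 u v hu hvB, Prod.mk.injEq] at h2
          rw [mem_image]
          refine ⟨cl v - s.B, mem_filter.mpr ⟨mem_range.mpr (hspec v hvB), h2.1⟩, by omega⟩
        · rw [Finset.sum_image]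
          · exact le_of_eq rfl
          · intro a _ b _ hab
            have : s.B + a = s.B + b := hab
            omega
      · have : (univ.filter (fun v => L.Adj u v ∧ be u v = (P, U))) = ∅ := by
          rw [Finset.filter_eq_empty_iff]
          intro v _ hv
          exact hne ⟨v, hv⟩
        rw [this]
        simp
    · -- special vertex
      by_cases hne : ∃ v, L.Adj u v ∧ be u v = (P, U)
      · obtain ⟨v0, hv0, hb0⟩ := hne
        have hrow : ∀ v, L.Adj u v → cl v ∈ s.R := by
          intro v hv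
          rcases hL.sup u v hv with h | h
          · have := lt_B hs h.1
            omega
          · exact h.2
        rw [be2 u v0 (hrow v0 hv0) hu.1, Prod.mk.injEq] at hb0
        obtain ⟨hP, hU⟩ := hb0
        have hPH : P < s.H := by
          rw [← hP]
          exact hs.prt _ (hspec u hu.1)
        rw [hP] at hU
        have h4 := hs.S4 P hPH (cl v0) (hrow v0 hv0)
        rw [hU] at h4
        have h5 : ((univ.filter (fun v => L.Adj u v ∧ be u v = (P, U))).card : ℝ) ≤
            (lab s.st U).card := by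
          refine le_trans ?_ h4
          have h6 := card_cells cl (s.R.filter fun b => s.S P b = U)
            (fun v => L.Adj u v ∧ be u v = (P, U)) (fun v => L.Adj u v) (by
              rintro v ⟨h1, h2⟩
              refine ⟨mem_filter.mpr ⟨hrow v h1, ?_⟩, h1⟩
              rw [be2 u v (hrow v h1) hu.1, Prod.mk.injEq, hP] at h2
              exact h2.2)
          calc ((univ.filter (fun v => L.Adj u v ∧ be u v = (P, U))).card : ℝ)
              ≤ ((∑ i ∈ s.R.filter fun b => s.S P b = U,
                  ((cell cl i).filter (fun v => L.Adj u v)).card : ℕ) : ℝ) := by exact_mod_cast h6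
            _ = ∑ i ∈ s.R.filter fun b => s.S P b = U, (nb L (cell cl i) u : ℝ) := by
                push_cast
                rfl
            _ ≤ ∑ i ∈ s.R.filter fun b => s.S P b = U, 16 * s.ρ2 * s.μ * D := by
                apply Finset.sum_le_sum
                intro a ha
                exact hL.rig u hu.1 a (mem_filter.mp ha).1
            _ = ((s.R.filter fun b => s.S P b = U).card : ℝ) * (16 * s.ρ2 * s.μ) * D := by
                rw [Finset.sum_const, nsmul_eq_mul]
                ring
        exact_mod_cast h5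
      · have : (univ.filter (fun v => L.Adj u v ∧ be u v = (P, U))) = ∅ := by
          rw [Finset.filter_eq_empty_iff]
          intro v _ hv
          exact hne ⟨v, hv⟩
        rw [this]
        simp
  have H4 : ∀ u v w, L.Adj u v → L.Adj u w → be u v ≠ be u w →
      Disjoint (lab s.st (be u v).2) (lab s.st (be u w).2) := by
    intro u v w huv huw hne
    apply lab_disj hmono
    rcases hC.val u with hu | hu
    · have hsp : ∀ v, L.Adj u v → s.B ≤ cl v := by
        intro v hv
        rcases hL.sup u v hv with h | h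
        · exact h.2
        · have := lt_B hs hu
          omega
      have hv := hsp v huv
      have hw := hsp w huw
      rw [be1 u v hu hv, be1 u w hu hw] at hne ⊢
      have hPQ : s.part (cl v - s.B) ≠ s.part (cl w - s.B) := by
        intro h
        apply hne
        rw [h]
      exact hs.S2 _ (hs.prt _ (hspec v hv)) _ (hs.prt _ (hspec w hw)) hPQ _ hu
    · have hrow : ∀ v, L.Adj u v → cl v ∈ s.R := by
        intro v hv
        rcases hL.sup u v hv with h | h
        · have := lt_B hs h.1
          omega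
        · exact h.2
      rw [be2 u v (hrow v huv) hu.1, be2 u w (hrow w huw) hu.1] at hne ⊢
      rcases hs.S3 _ (hs.prt _ (hspec u hu.1)) _ (hrow v huv) _ (hrow w huw) with h | h
      · exfalso
        apply hne
        rw [h]
      · exact h
  obtain ⟨g, g1, g2, g3⟩ := hB V L (ℕ × Finset ℕ) be (fun i => lab s.st i.2)
    (fun _ => univ.filter fun v => cl v ∈ s.R) (fun _ => univ.filter fun v => s.B ≤ cl v)
    besym H1 H2 (fun i u => filter_inst (H3 i u)) H4
  refine ⟨g, g1, ?_, g3⟩
  intro z u hzu hz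
  have hu : s.B ≤ cl u := by
    rcases hL.sup z u hzu with h | h
    · exact h.2
    · have := lt_B hs hz
      omega
  have := g2 z u hzu
  rw [be1 z u hz hu] at this
  exact this

end Pool.Agent.H87.HW
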