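import Pool.Agent.H87.HW.Blb

/-!
# Project HW, part PAL (helper87)
-/

set_option autoImplicit false
open Classical Finset

namespace Pool.Agent.H87.HW

open Pool.Agent.H21.HV (nb Prp TotLab)
open Pool.Agent.H39.HW (sm Av ln blk lab Dat Sch Reg)
open Pool.Agent.H65.HW

theorem sm_comm (B a b : ℕ) : sm B a b = sm B b a := by
  unfold sm
  rw [Nat.add_comm]

theorem sm_lt {B a b : ℕ} (ha : a < B) (hb : b < B) : sm B a b < B := by
  unfold sm
  split_ifs <;> omega

theorem sm_inj {B a b c : ℕ} (ha : a < B) (hb : b < B) (hc : c < B)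
    (h : sm B a b = sm B a c) : b = c := by
  unfold sm at h
  split_ifs at h <;> omega

/-- the remaining edges -/
def remG {V : Type} (G T L : SimpleGraph V) (s : Dat) (cl : V → ℕ) : SimpleGraph V where
  Adj u v := Rem G T L s cl u v
  symm := ⟨fun u v h => ⟨h.1.symm, fun h' => h.2.1 h'.symm, fun h' => h.2.2.1 h'.symm,
    fun h' => h.2.2.2.1 h'.symm, h.2.2.2.2.symm⟩⟩
  loopless := ⟨fun u h => h.1.ne rfl⟩

/-- in a cell: the edges of `G` which are neither in `T` nor in `L` -/
theorem cell_rem {V : Type} [Fintype V] (G T L : SimpleGraph V) (hT : T ≤ G) (hL : L ≤ G)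
    (hd : ∀ u v, L.Adj u v → ¬ T.Adj u v) (S : Finset V) (u : V) :
    (S.filter (fun v => G.Adj u v ∧ ¬ T.Adj u v ∧ ¬ L.Adj u v)).card + nb L S u + nb T S u =
      nb G S u := by
  unfold nb
  have h1 : (S.filter (fun v => G.Adj u v ∧ ¬ T.Adj u v ∧ ¬ L.Adj u v)) ∪
      S.filter (fun v => L.Adj u v) ∪ S.filter (fun v => T.Adj u v) =
      S.filter (fun v => G.Adj u v) := by
    ext v
    simp only [mem_union, mem_filter]
    constructor
    · rintro ((⟨h, h', -⟩ | ⟨h, h'⟩) | ⟨h, h'⟩)
      · exact ⟨h, h'⟩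
      · exact ⟨h, hL h'⟩
      · exact ⟨h, hT h'⟩
    · rintro ⟨h, h'⟩
      by_cases h2 : T.Adj u v
      · exact Or.inr ⟨h, h2⟩
      · by_cases h3 : L.Adj u v
        · exact Or.inl (Or.inr ⟨h, h3⟩)
        · exact Or.inl (Or.inl ⟨h, h', h2, h3⟩)
  rw [← h1, card_union_of_disjoint, card_union_of_disjoint]
  · rw [Finset.disjoint_left]
    intro v h2 h3
    exact (mem_filter.mp h2).2.2.2 (mem_filter.mp h3).2
  · rw [Finset.disjoint_left]
    intro v h2 h3
    have h3' := (mem_filter.mp h3).2
    rcases mem_union.mp h2 with h4 | h4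
    · exact (mem_filter.mp h4).2.2.1 h3'
    · exact hd u v (mem_filter.mp h4).2 h3'

theorem t_PAL (hB : S_BLB) : S_PAL := by
  intro V _ G D p s cl x f T c L hC _ _ hT hL
  have hs := hC.sch
  have hmono := st_mono hs.stm
  have hspec : ∀ u, s.B ≤ cl u → cl u - s.B < s.m := by
    intro u hu
    rcases hC.val u with h | h
    · have := lt_B hs h
      omega
    · omega
  have hcls : ∀ a β, β ∈ s.cls p a → β < s.B := by
    intro a β h
    unfold Dat.cls at h
    have h1 := (mem_sdiff.mp h).1
    have h2 := (mem_erase.mp h1).2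
    exact mem_range.mp (mem_filter.mp h2).1
  -- a row has few neighbours of every vertex
  have hsmall : ∀ u, ∀ a ∈ s.R, ∀ β < s.B, nb G (cell cl a) u ≤ ln s.st β := by
    intro u a ha β hβ
    have h1 := (abs_le.mp (hC.row u a ha)).2
    have h2 := hs.lnl β hβ
    have hD : (0 : ℝ) ≤ D := Nat.cast_nonneg _
    have h3 : (nb G (cell cl a) u : ℝ) ≤ ln s.st β := by
      have h4 : 0 ≤ s.δ * D := mul_nonneg hs.dpos.le hD
      nlinarith
    exact_mod_cast h3
  obtain ⟨right, hright⟩ : ∃ right : ℕ → ℕ → Prop, ∀ β a, right β a ↔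
      ∃ b ∈ s.R, b < a ∧ sm s.B a b = β := ⟨_, fun _ _ => Iff.rfl⟩
  let be : V → V → ℕ := fun u v =>
    if cl u ∈ s.R ∧ cl v ∈ s.R then sm s.B (cl u) (cl v)
    else if cl u ∈ s.R then s.φ (cl v - s.B) (cl u)
    else if cl v ∈ s.R then s.φ (cl u - s.B) (cl v)
    else 0
  have be0 : ∀ u v, cl u ∈ s.R → cl v ∈ s.R → be u v = sm s.B (cl u) (cl v) := by
    intro u v h1 h2
    simp only [be]
    rw [if_pos ⟨h1, h2⟩]
  have be1 : ∀ u v, cl u ∈ s.R → s.B ≤ cl v → be u v = s.φ (cl v - s.B) (cl u) := by
    intro u v h1 h2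
    have h3 : cl v ∉ s.R := by
      intro h3
      have := lt_B hs h3
      omega
    simp only [be]
    rw [if_neg (fun h => h3 h.2), if_pos h1]
  have be2 : ∀ u v, cl v ∈ s.R → s.B ≤ cl u → be u v = s.φ (cl u - s.B) (cl v) := by
    intro u v h1 h2
    have h3 : cl u ∉ s.R := by
      intro h3
      have := lt_B hs h3
      omega
    simp only [be]
    rw [if_neg (fun h => h3 h.1), if_neg h3, if_pos h1]
  have besym : ∀ u v, be u v = be v u := by
    intro u v
    by_cases h1 : cl u ∈ s.R
    · by_cases h2 : cl v ∈ s.R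
      · rw [be0 u v h1 h2, be0 v u h2 h1, sm_comm]
      · rcases hC.val v with h | h
        · exact absurd h h2
        · rw [be1 u v h1 h.1, be2 v u h1 h.1]
    · rcases hC.val u with h | h
      · exact absurd h h1
      · by_cases h2 : cl v ∈ s.R
        · rw [be2 u v h2 h.1, be1 v u h2 h.1]
        · simp only [be]
          rw [if_neg (fun h => h1 h.1), if_neg h1, if_neg h2, if_neg (fun h => h2 h.1),
            if_neg h2, if_neg h1]
  let P : ℕ → Finset V := fun β => univ.filter (fun v => (cl v ∈ s.R ∧ ¬ right β (cl v)) ∨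
    (s.B ≤ cl v ∧ ∃ a ∈ s.R, s.φ (cl v - s.B) a = β ∧ right β a))
  let Q : ℕ → Finset V := fun β => univ.filter (fun v => (cl v ∈ s.R ∧ right β (cl v)) ∨
    (s.B ≤ cl v ∧ ∃ a ∈ s.R, s.φ (cl v - s.B) a = β ∧ ¬ right β a))
  have hPm : ∀ β v, v ∈ P β ↔ ((cl v ∈ s.R ∧ ¬ right β (cl v)) ∨
    (s.B ≤ cl v ∧ ∃ a ∈ s.R, s.φ (cl v - s.B) a = β ∧ right β a)) := by
    intro β v
    simp only [P, mem_filter, mem_univ, true_and]
  have hQm : ∀ β v, v ∈ Q β ↔ ((cl v ∈ s.R ∧ right β (cl v)) ∨
    (s.B ≤ cl v ∧ ∃ a ∈ s.R, s.φ (cl v - s.B) a = β ∧ ¬ right β a)) := by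
    intro β v
    simp only [Q, mem_filter, mem_univ, true_and]
  have H1 : ∀ β, Disjoint (P β) (Q β) := by
    intro β
    rw [Finset.disjoint_left]
    intro v h1 h2
    rw [hPm] at h1
    rw [hQm] at h2
    rcases h1 with ⟨h1, h1'⟩ | ⟨h1, a, ha, hφ, hr⟩
    · rcases h2 with ⟨h2, h2'⟩ | ⟨h2, -⟩
      · exact h1' h2'
      · have := lt_B hs h1
        omega
    · rcases h2 with ⟨h2, h2'⟩ | ⟨h2, a', ha', hφ', hr'⟩
      · have := lt_B hs h2
        omega
      · have : a = a' := hs.ph2 _ (hspec v h1) a ha a' ha' (hφ.trans hφ'.symm)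
        rw [this] at hr
        exact hr' hr
  -- two rows
  have hrows : ∀ a ∈ s.R, ∀ b ∈ s.R, a < b → ¬ right (sm s.B a b) a ∧ right (sm s.B a b) b := by
    intro a ha b hb hab
    constructor
    · rw [hright]
      rintro ⟨c, hc, hca, hsm⟩
      have := sm_inj (lt_B hs ha) (lt_B hs hc) (lt_B hs hb) hsm
      omega
    · rw [hright]
      exact ⟨a, ha, hab, sm_comm _ _ _⟩
  have H2 : ∀ u v, (remG G T L s cl).Adj u v →
      (u ∈ P (be u v) ∧ v ∈ Q (be u v)) ∨ (u ∈ Q (be u v) ∧ v ∈ P (be u v)) := by
    intro u v huv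
    obtain ⟨-, -, -, hne, hor⟩ := (show Rem G T L s cl u v from huv)
    by_cases h1 : cl u ∈ s.R
    · by_cases h2 : cl v ∈ s.R
      · rw [be0 u v h1 h2]
        rcases lt_or_gt_of_ne hne with h | h
        · obtain ⟨r1, r2⟩ := hrows _ h1 _ h2 h
          left
          exact ⟨(hPm _ _).mpr (Or.inl ⟨h1, r1⟩), (hQm _ _).mpr (Or.inl ⟨h2, r2⟩)⟩
        · obtain ⟨r1, r2⟩ := hrows _ h2 _ h1 h
          rw [sm_comm] at r1 r2
          right
          exact ⟨(hQm _ _).mpr (Or.inl ⟨h1, r2⟩), (hPm _ _).mpr (Or.inl ⟨h2, r1⟩)⟩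
      · rcases hC.val v with h | h
        · exact absurd h h2
        · rw [be1 u v h1 h.1]
          by_cases hr : right (s.φ (cl v - s.B) (cl u)) (cl u)
          · right
            exact ⟨(hQm _ _).mpr (Or.inl ⟨h1, hr⟩), (hPm _ _).mpr (Or.inr ⟨h.1, cl u, h1, rfl, hr⟩)⟩
          · left
            exact ⟨(hPm _ _).mpr (Or.inl ⟨h1, hr⟩), (hQm _ _).mpr (Or.inr ⟨h.1, cl u, h1, rfl, hr⟩)⟩
    · have h2 : cl v ∈ s.R := hor.resolve_left h1
      rcases hC.val u with h | h
      · exact absurd h h1
      · rw [be2 u v h2 h.1]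
        by_cases hr : right (s.φ (cl u - s.B) (cl v)) (cl v)
        · left
          exact ⟨(hPm _ _).mpr (Or.inr ⟨h.1, cl v, h2, rfl, hr⟩), (hQm _ _).mpr (Or.inl ⟨h2, hr⟩)⟩
        · right
          exact ⟨(hQm _ _).mpr (Or.inr ⟨h.1, cl v, h2, rfl, hr⟩), (hPm _ _).mpr (Or.inl ⟨h2, hr⟩)⟩
  have H3 : ∀ (β : ℕ) u, (univ.filter (fun v => (remG G T L s cl).Adj u v ∧ be u v = β)).card ≤
      (blk s.st β).card := by
    intro β u
    rw [blk_card]
    by_cases hne : ∃ v, (remG G T L s cl).Adj u v ∧ be u v = β
    · obtain ⟨v0, hv0, hb0⟩ := hne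
      obtain ⟨-, -, -, hne0, hor0⟩ := (show Rem G T L s cl u v0 from hv0)
      rcases hC.val u with hu | hu
      · -- `u` in a row
        have hβB : β < s.B := by
          rcases hC.val v0 with h | h
          · rw [be0 u v0 hu h] at hb0
            rw [← hb0]
            exact sm_lt (lt_B hs hu) (lt_B hs h)
          · rw [be1 u v0 hu h.1] at hb0
            rw [← hb0]
            exact hcls _ _ (hs.ph1 _ (hspec v0 h.1) _ hu)
        have hrz : rz G s cl u β ≤ ln s.st β := by
          unfold rz
          by_cases hb : ∃ b0 ∈ s.R.erase (cl u), sm s.B (cl u) b0 = β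
          · obtain ⟨b0, hb0R, hb0β⟩ := hb
            have hsub : (s.R.erase (cl u)).filter (fun b => sm s.B (cl u) b = β) ⊆ {b0} := by
              intro b hb
              obtain ⟨q1, q2⟩ := mem_filter.mp hb
              rw [mem_singleton]
              exact sm_inj (lt_B hs hu) (lt_B hs (mem_erase.mp q1).2)
                (lt_B hs (mem_erase.mp hb0R).2) (q2.trans hb0β.symm)
            refine le_trans (Finset.sum_le_sum_of_subset hsub) ?_
            rw [Finset.sum_singleton]
            exact hsmall u b0 (mem_erase.mp hb0R).2 β hβB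
          · have : (s.R.erase (cl u)).filter (fun b => sm s.B (cl u) b = β) = ∅ := by
              rw [Finset.filter_eq_empty_iff]
              intro b hb' hb''
              exact hb ⟨b, hb', hb''⟩
            rw [this, Finset.sum_empty]
            exact Nat.zero_le _
        have hA1 : (univ.filter (fun v => ((remG G T L s cl).Adj u v ∧ be u v = β) ∧
            cl v ∈ s.R)).card ≤ rz G s cl u β := by
          unfold rz
          refine le_trans (card_cells cl
            ((s.R.erase (cl u)).filter (fun b => sm s.B (cl u) b = β)) _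
            (fun v => G.Adj u v) ?_) (le_of_eq rfl)
          rintro v ⟨⟨h1, h2⟩, h3⟩
          obtain ⟨hg, -, -, hne', -⟩ := (show Rem G T L s cl u v from h1)
          rw [be0 u v hu h3] at h2
          exact ⟨mem_filter.mpr ⟨mem_erase.mpr ⟨fun h => hne' h.symm, h3⟩, h2⟩, hg⟩
        have hsplit : (univ.filter (fun v => (remG G T L s cl).Adj u v ∧ be u v = β)).card ≤
            (univ.filter (fun v => ((remG G T L s cl).Adj u v ∧ be u v = β) ∧
              cl v ∈ s.R)).card +
            (univ.filter (fun v => ((remG G T L s cl).Adj u v ∧ be u v = β) ∧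
              s.B ≤ cl v)).card := by
          refine le_trans (Finset.card_le_card ?_) (Finset.card_union_le _ _)
          intro v hv
          have h1 := (mem_filter.mp hv).2
          rw [mem_union]
          rcases hC.val v with h | h
          · left
            exact mem_filter.mpr ⟨mem_univ _, h1, h⟩
          · right
            exact mem_filter.mpr ⟨mem_univ _, h1, h.1⟩
        by_cases hcl : β ∈ s.cls p (cl u)
        · have hA2 : (univ.filter (fun v => ((remG G T L s cl).Adj u v ∧ be u v = β) ∧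
              s.B ≤ cl v)).card ≤ pz G s cl u β := by
            have h1 := card_cells cl
              (((range s.m).filter (fun y => s.φ y (cl u) = β)).image (fun y => s.B + y))
              (fun v => ((remG G T L s cl).Adj u v ∧ be u v = β) ∧ s.B ≤ cl v)
              (fun v => G.Adj u v ∧ ¬ T.Adj u v ∧ ¬ L.Adj u v) (by
                rintro v ⟨⟨q1, q2⟩, q3⟩
                obtain ⟨hg, ht, hl, -, -⟩ := (show Rem G T L s cl u v from q1)
                rw [be1 u v hu q3] at q2
                refine ⟨mem_image.mpr ⟨cl v - s.B, mem_filter.mpr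
                  ⟨mem_range.mpr (hspec v q3), q2⟩, by omega⟩, hg, ht, hl⟩)
            rw [Finset.sum_image (fun a _ b _ hab => by
              have : s.B + a = s.B + b := hab
              omega)] at h1
            have h2 := hL.ser u hu β hcl
            have h3 : ∑ y ∈ (range s.m).filter (fun y => s.φ y (cl u) = β),
                ((cell cl (s.B + y)).filter
                  (fun v => G.Adj u v ∧ ¬ T.Adj u v ∧ ¬ L.Adj u v)).card +
                ∑ y ∈ (range s.m).filter (fun y => s.φ y (cl u) = β),
                  nb L (cell cl (s.B + y)) u ≤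
                ∑ y ∈ (range s.m).filter (fun y => s.φ y (cl u) = β), Nz G T s cl u y := by
              rw [← Finset.sum_add_distrib]
              apply Finset.sum_le_sum
              intro y _
              have := cell_rem G T L hT.le hL.le hL.dis (cell cl (s.B + y)) u
              unfold Nz
              omega
            omega
          have h5 : pz G s cl u β = ln s.st β - rz G s cl u β := rfl
          omega
        · have hA2 : (univ.filter (fun v => ((remG G T L s cl).Adj u v ∧ be u v = β) ∧
              s.B ≤ cl v)).card = 0 := by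
            rw [Finset.card_eq_zero, Finset.filter_eq_empty_iff]
            rintro v _ ⟨⟨q1, q2⟩, q3⟩
            apply hcl
            rw [be1 u v hu q3] at q2
            rw [← q2]
            exact hs.ph1 _ (hspec v q3) _ hu
          omega
      · -- `u` special
        have hrow : ∀ v, (remG G T L s cl).Adj u v → cl v ∈ s.R := by
          intro v hv
          obtain ⟨-, -, -, -, hor⟩ := (show Rem G T L s cl u v from hv)
          rcases hor with h | h
          · have := lt_B hs h
            omega
          · exact h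
        have hv0R := hrow v0 hv0
        rw [be2 u v0 hv0R hu.1] at hb0
        have hβB : β < s.B := by
          rw [← hb0]
          exact hcls _ _ (hs.ph1 _ (hspec u hu.1) _ hv0R)
        refine le_trans (card_cells cl {cl v0} _ (fun v => G.Adj u v) ?_) ?_
        · rintro v ⟨q1, q2⟩
          have hvR := hrow v q1
          rw [be2 u v hvR hu.1] at q2
          refine ⟨?_, (show Rem G T L s cl u v from q1).1⟩
          rw [mem_singleton]
          exact hs.ph2 _ (hspec u hu.1) _ hvR _ hv0R (q2.trans hb0.symm)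
        · rw [Finset.sum_singleton]
          exact hsmall u _ hv0R β hβB
    · have : (univ.filter (fun v => (remG G T L s cl).Adj u v ∧ be u v = β)) = ∅ := by
        rw [Finset.filter_eq_empty_iff]
        intro v _ hv
        exact hne ⟨v, hv⟩
      rw [this]
      simp
  have H4 : ∀ u v w, (remG G T L s cl).Adj u v → (remG G T L s cl).Adj u w → be u v ≠ be u w →
      Disjoint (blk s.st (be u v)) (blk s.st (be u w)) := fun u v w _ _ h => blk_disj hmono h
  obtain ⟨g, g1, g2, g3⟩ := hB V (remG G T L s cl) ℕ be (blk s.st) P Q besym H1 H2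
    (fun i u => filter_inst (H3 i u)) H4
  refine ⟨g, g1, ?_, ?_, ?_⟩
  · intro u v huv hu hv
    have := g2 u v huv
    rw [be0 u v hu hv] at this
    exact this
  · intro z u hzu hz hu
    have := g2 z u hzu
    rw [be1 z u hz hu] at this
    exact this
  · exact g3

end Pool.Agent.H87.HW
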